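import Pool.Agent.H42.Hdz1

open Cardinal Filter Pool.Agent.H42.Hdz

theorem Pool.Agent.Results.MP_feb643_gt.No.result :
    ∃ c : ℕ → ℕ, (∀ n, 0 < c n) ∧
      (∃ X Y : Set ℝ, #X ≤ aLc c ∧ dimH Y = 0 ∧ 1 ≤ dimH (X ×ˢ Y)) ∧
      (aLc c < pNum → ∃ X Y : Set ℝ, #X < pNum ∧ dimH Y = 0 ∧ dimH (X ×ˢ Y) ≠ 0) := by
  obtain ⟨X, a, c⟩ := main
  exact ⟨b, b_pos, ⟨X, Y, a, dim_Y, c⟩, fun h => ⟨X, Y, a.trans_lt h, dim_Y,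
    (zero_lt_one.trans_le c).ne'⟩⟩
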